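import Pool.Agent.Helper95.TipsyGame
import Pool.Agent.Helper95.TipsyProof

open Pool.Agent.Helper95.Tipsy

namespace Pool.Agent.Results.MP_037b14_pr.MonotoneFails

/-- **Disproof.** There are a connected, locally finite graph, positive parameters
`c, r, t_c, t_r` of sum `1` and a starting position for which some cop strategy is winning, but
no monotone cop strategy is winning. -/
theorem result : ∃ (V : Type) (G : SimpleGraph V) (_ : G.LocallyFinite) (p : Params)
    (x₀ : Position V), G.Connected ∧ (0 < p.c ∧ 0 < p.r ∧ 0 < p.tc ∧ 0 < p.tr) ∧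
      (∃ σ : CopStrategy G, Winning G p x₀ σ) ∧
      ¬ ∃ σ : CopStrategy G, IsMonotone G σ ∧ Winning G p x₀ σ := by
  refine ⟨Vtx, ladder, instLocallyFiniteLadder, params, ⟨vtx (.B 4), vtx (.A 1)⟩,
    ladder_connected, ?_, ⟨copStrategy, cop_wins _⟩, ?_⟩
  · refine ⟨?_, ?_, ?_, ?_⟩ <;> simp [params]
  · rintro ⟨σ, hσ, hw⟩
    exact cop_loses σ hσ hw

end Pool.Agent.Results.MP_037b14_pr.MonotoneFails
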